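import Pool.Agent.Helper26.RP.Goals

/-! MP_105b7b_pr, packet GCL. -/

noncomputable section

namespace RP.PkGCL

open RP MeasureTheory Filter Topology

/-- The conclusion for a body and its two parts. -/
def Concl (K K1 K2 : Set E) : Prop :=
  ar K1 + ar K2 = ar K ∧
  ∀ ε : ℝ, 0 < ε → ∃ η : ℝ, 0 < η ∧ ∃ N : ℕ, ∀ a b : ℕ, N ≤ a → N ≤ b →
    |(a:ℝ) - ar K1 / ar K * ((a:ℝ) + b)| ≤ η * ((a:ℝ) + b) →
    w a K1 * w b K2 * Real.exp (-ε * ((a:ℝ) + b)) ≤ w (a + b + 6) K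

theorem transport (haff : G_AFF) (L : E →ₗ[ℝ] E) (t : E) (hdet : LinearMap.det L ≠ 0)
    {K K1 K2 : Set E} (hK : Body K) (h1 : Body K1) (h2 : Body K2)
    (h : Concl ((fun p => L p + t) '' K) ((fun p => L p + t) '' K1) ((fun p => L p + t) '' K2)) :
    Concl K K1 K2 := by
  obtain ⟨_, _, har, hw⟩ := haff L t hdet
  have hd : 0 < |LinearMap.det L| := abs_pos.2 hdet
  obtain ⟨g1, g2⟩ := h
  rw [har, har, har, ← mul_add] at g1
  refine ⟨mul_left_cancel₀ hd.ne' g1, ?_⟩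
  intro ε hε
  obtain ⟨η, hη, N, hN⟩ := g2 ε hε
  refine ⟨η, hη, N, fun a b ha hb hab => ?_⟩
  have := hN a b ha hb
  rw [har, har, mul_div_mul_left _ _ hd.ne', (hw a K1 h1).2, (hw b K2 h2).2,
    (hw (a + b + 6) K hK).2] at this
  exact this hab

theorem ar_pos {K : Set E} (hK : Body K) : 0 < ar K := by
  refine ENNReal.toReal_pos ?_ hK.cpt.measure_lt_top.ne
  have h1 : 0 < volume (interior K) := isOpen_interior.measure_pos volume hK.int
  have h2 : volume (interior K) ≤ volume K := measure_mono interior_subset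
  exact (lt_of_lt_of_le h1 h2).ne'

theorem vr_nonneg (n : ℕ) (U : Set E) : 0 ≤ vr n U := ENNReal.toReal_nonneg

/-- The algebra. -/
theorem alg (a b : ℕ) (ha : 1 ≤ a) (hb : 1 ≤ b) {A A1 A2 κ ε V V1 V2 : ℝ} (hA : 0 < A)
    (hA1 : 0 < A1) (hA2 : 0 < A2) (hκ : 0 < κ) (hV : 0 ≤ V) (hV1 : 0 ≤ V1) (hV2 : 0 ≤ V2)
    (hcut : κ * Real.exp (-(ε / 3) * ((a:ℝ) + b)) * V1 * V2 ≤ 16 * (a:ℝ) ^ 2 * (b:ℝ) ^ 2 * V)
    (hbin : Real.exp (-(ε / 3) * ((a:ℝ) + b)) ≤
      ((a + b).choose a : ℝ) * (A1 / A) ^ a * (A2 / A) ^ b)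
    (hbig : 16 * ((a:ℝ) + b) ^ 4 * A ^ 6 * Real.exp (-(ε / 3) * ((a:ℝ) + b)) ≤ κ) :
    ((a.factorial : ℝ) * V1 / A1 ^ a) * ((b.factorial : ℝ) * V2 / A2 ^ b) *
      Real.exp (-ε * ((a:ℝ) + b)) ≤ ((a + b + 6).factorial : ℝ) * V / A ^ (a + b + 6) := by
  set e : ℝ := Real.exp (-(ε / 3) * ((a:ℝ) + b)) with he
  have he0 : 0 < e := Real.exp_pos _
  have he3 : Real.exp (-ε * ((a:ℝ) + b)) = e ^ 3 := by
    rw [he, ← Real.exp_nat_mul]
    congr 1
    push_cast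
    ring
  set W : ℝ := ((a.factorial : ℝ) * V1 / A1 ^ a) * ((b.factorial : ℝ) * V2 / A2 ^ b) with hW
  have hW0 : 0 ≤ W := by positivity
  have hfac : ((a + b).choose a : ℝ) * (a.factorial : ℝ) * (b.factorial : ℝ) =
      ((a + b).factorial : ℝ) := by
    rw [Nat.choose_symm_add]
    exact_mod_cast Nat.add_choose_mul_factorial_mul_factorial a b
  have ha1 : (1:ℝ) ≤ a := by exact_mod_cast ha
  have hb1 : (1:ℝ) ≤ b := by exact_mod_cast hb
  -- first claim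
  have c1 : e * W * A ^ (a + b) ≤ ((a + b).factorial : ℝ) * (V1 * V2) := by
    have h1 := mul_le_mul_of_nonneg_right hbin hW0
    have h2 : ((a + b).choose a : ℝ) * (A1 / A) ^ a * (A2 / A) ^ b * W * A ^ (a + b) =
        ((a + b).factorial : ℝ) * (V1 * V2) := by
      rw [← hfac, hW, div_pow, div_pow, pow_add]
      field_simp
    rw [← h2]
    exact mul_le_mul_of_nonneg_right h1 (by positivity)
  have c2 : e * (16 * ((a:ℝ) ^ 2 * (b:ℝ) ^ 2) * A ^ 6) ≤ κ := by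
    refine le_trans ?_ hbig
    have h3 : (a:ℝ) ^ 2 * (b:ℝ) ^ 2 ≤ ((a:ℝ) + b) ^ 4 := by
      have h4 : (a:ℝ) ^ 2 ≤ ((a:ℝ) + b) ^ 2 := pow_le_pow_left₀ (by positivity) (by linarith) 2
      have h5 : (b:ℝ) ^ 2 ≤ ((a:ℝ) + b) ^ 2 := pow_le_pow_left₀ (by positivity) (by linarith) 2
      calc (a:ℝ) ^ 2 * (b:ℝ) ^ 2 ≤ ((a:ℝ) + b) ^ 2 * ((a:ℝ) + b) ^ 2 :=
            mul_le_mul h4 h5 (by positivity) (by positivity)
        _ = ((a:ℝ) + b) ^ 4 := by ring
    calc e * (16 * ((a:ℝ) ^ 2 * (b:ℝ) ^ 2) * A ^ 6)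
        = ((a:ℝ) ^ 2 * (b:ℝ) ^ 2) * (16 * A ^ 6 * e) := by ring
      _ ≤ ((a:ℝ) + b) ^ 4 * (16 * A ^ 6 * e) := mul_le_mul_of_nonneg_right h3 (by positivity)
      _ = 16 * ((a:ℝ) + b) ^ 4 * A ^ 6 * e := by ring
  have c3 : κ * e * (e * W * A ^ (a + b)) ≤
      ((a + b).factorial : ℝ) * (16 * ((a:ℝ) ^ 2 * (b:ℝ) ^ 2) * V) := by
    calc κ * e * (e * W * A ^ (a + b)) ≤ κ * e * (((a + b).factorial : ℝ) * (V1 * V2)) :=
          mul_le_mul_of_nonneg_left c1 (by positivity)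
      _ = ((a + b).factorial : ℝ) * (κ * e * V1 * V2) := by ring
      _ ≤ ((a + b).factorial : ℝ) * (16 * (a:ℝ) ^ 2 * (b:ℝ) ^ 2 * V) :=
          mul_le_mul_of_nonneg_left hcut (by positivity)
      _ = _ := by ring
  have c4 : e * (16 * ((a:ℝ) ^ 2 * (b:ℝ) ^ 2) * A ^ 6) * (e * (e * W * A ^ (a + b))) ≤
      ((a + b).factorial : ℝ) * (16 * ((a:ℝ) ^ 2 * (b:ℝ) ^ 2) * V) := by
    refine le_trans (mul_le_mul_of_nonneg_right c2 (by positivity)) ?_
    calc κ * (e * (e * W * A ^ (a + b))) = κ * e * (e * W * A ^ (a + b)) := by ring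
      _ ≤ _ := c3
  have hab : 0 < 16 * ((a:ℝ) ^ 2 * (b:ℝ) ^ 2) := by positivity
  have c5 : W * e ^ 3 * A ^ (a + b + 6) ≤ ((a + b).factorial : ℝ) * V := by
    have h6 : 16 * ((a:ℝ) ^ 2 * (b:ℝ) ^ 2) * (W * e ^ 3 * A ^ (a + b + 6)) ≤
        16 * ((a:ℝ) ^ 2 * (b:ℝ) ^ 2) * (((a + b).factorial : ℝ) * V) := by
      calc 16 * ((a:ℝ) ^ 2 * (b:ℝ) ^ 2) * (W * e ^ 3 * A ^ (a + b + 6))
          = e * (16 * ((a:ℝ) ^ 2 * (b:ℝ) ^ 2) * A ^ 6) * (e * (e * W * A ^ (a + b))) := by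
            rw [pow_add A (a + b) 6]
            ring
        _ ≤ ((a + b).factorial : ℝ) * (16 * ((a:ℝ) ^ 2 * (b:ℝ) ^ 2) * V) := c4
        _ = _ := by ring
    exact le_of_mul_le_mul_left h6 hab
  have c6 : ((a + b).factorial : ℝ) ≤ ((a + b + 6).factorial : ℝ) := by
    exact_mod_cast Nat.factorial_le (by omega)
  rw [he3, le_div_iff₀ (by positivity)]
  exact c5.trans (mul_le_mul_of_nonneg_right c6 hV)

theorem null_line : volume {p : E | p.1 = 0} = 0 := by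
  have h1 : {p : E | p.1 = 0} = ({0} : Set ℝ) ×ˢ (Set.univ : Set ℝ) := by
    ext p
    simp
  rw [h1, Measure.volume_eq_prod, Measure.prod_prod]
  simp

/-- The case of the line `x = 0`, the origin being an interior point. -/
theorem core (hcut : G_CUT) (hbin : G_BIN) {K : Set E} (hK : Body K)
    (h1 : Body (K ∩ {p | p.1 ≤ 0})) (h2 : Body (K ∩ {p | 0 ≤ p.1}))
    (h0 : (0 : E) ∈ interior K) : Concl K (K ∩ {p | p.1 ≤ 0}) (K ∩ {p | 0 ≤ p.1}) := by
  set K1 : Set E := K ∩ {p | p.1 ≤ 0} with hK1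
  set K2 : Set E := K ∩ {p | 0 ≤ p.1} with hK2
  have hA := ar_pos hK
  have hA1 := ar_pos h1
  have hA2 := ar_pos h2
  have hsum : ar K1 + ar K2 = ar K := by
    have hmeas : MeasurableSet K2 := h2.cpt.measurableSet
    have h3 := measure_union_add_inter (μ := (volume : Measure E)) K1 hmeas
    have h4 : K1 ∪ K2 = K := by
      ext p
      rw [hK1, hK2]
      constructor
      · rintro (h | h)
        · exact h.1
        · exact h.1
      · intro h
        rcases le_total p.1 0 with h5 | h5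
        · exact Or.inl ⟨h, h5⟩
        · exact Or.inr ⟨h, h5⟩
    have h5 : volume (K1 ∩ K2) = 0 := by
      refine measure_mono_null ?_ null_line
      rintro p ⟨hp1, hp2⟩
      exact le_antisymm hp1.2 hp2.2
    rw [h4, h5, add_zero] at h3
    rw [ar, ar, ar, ← ENNReal.toReal_add h1.cpt.measure_lt_top.ne h2.cpt.measure_lt_top.ne, h3]
  refine ⟨hsum, ?_⟩
  intro ε hε
  -- the constants
  obtain ⟨r, hr, hball⟩ := Metric.isOpen_iff.1 isOpen_interior 0 h0
  obtain ⟨Δ0, hΔ0⟩ := hK.cpt.isBounded.exists_norm_le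
  set d : ℝ := r / 2 with hd
  set v : ℝ := r / 4 with hv
  set Δ : ℝ := max Δ0 d with hΔ
  have hd0 : 0 < d := by positivity
  have hv0 : 0 < v := by positivity
  have hdΔ : d ≤ Δ := le_max_right _ _
  have hvΔ : v ≤ Δ := le_trans (by rw [hv, hd]; linarith) hdΔ
  have hΔpos : 0 < Δ := lt_of_lt_of_le hd0 hdΔ
  have hKΔ : ∀ p ∈ K, |p.2| ≤ Δ := by
    intro p hp
    have h3 := hΔ0 p hp
    have h4 : ‖p.2‖ ≤ ‖p‖ := norm_snd_le p
    rw [Real.norm_eq_abs] at h4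
    exact (h4.trans h3).trans (le_max_left _ _)
  have hbox : {p : E | |p.1| ≤ d ∧ |p.2| ≤ 2 * v} ⊆ K := by
    intro p hp
    apply interior_subset
    apply hball
    rw [mem_ball_zero_iff, Prod.norm_def, max_lt_iff, Real.norm_eq_abs, Real.norm_eq_abs]
    have := hp.1
    have := hp.2
    constructor <;> linarith
  have hzL : ((-d, 0) : E) ∈ K := by
    apply hbox
    constructor
    · simp [abs_of_pos hd0]
    · simp [hv0.le]
  have hzR : ((d, 0) : E) ∈ K := by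
    apply hbox
    constructor
    · simp [abs_of_pos hd0]
    · simp [hv0.le]
  set ρ : ℝ := 1 - Real.exp (-(ε / 6)) with hρ
  have hexp1 : Real.exp (-(ε / 6)) < 1 := by
    rw [Real.exp_lt_one_iff]
    linarith
  have hexp0 : 0 < Real.exp (-(ε / 6)) := Real.exp_pos _
  have hρ0 : 0 < ρ := by rw [hρ]; linarith
  have hρ1 : ρ < 1 := by rw [hρ]; linarith
  set κ : ℝ := (ρ * d * v / (256 * Δ)) ^ 12 with hκ
  have hκ0 : 0 < κ := by positivity
  -- the binomial terms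
  set θ : ℝ := ar K1 / ar K with hθ
  have hθ0 : 0 < θ := div_pos hA1 hA
  have hθ1 : θ < 1 := by
    rw [hθ, div_lt_one hA]
    linarith
  have hθ2 : 1 - θ = ar K2 / ar K := by
    rw [hθ, ← hsum]
    field_simp
    ring
  obtain ⟨η, hη, N0, hN0⟩ := hbin θ hθ0 hθ1 (ε / 3) (by positivity)
  -- large numbers
  have hlim : Tendsto (fun x : ℝ => 16 * x ^ 4 * ar K ^ 6 * Real.exp (-(ε / 3) * x)) atTop
      (𝓝 0) := by
    have h3 := (Real.tendsto_pow_mul_exp_neg_atTop_nhds_zero 4).comp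
      (tendsto_id.const_mul_atTop (show (0:ℝ) < ε / 3 by positivity))
    have h4 := h3.const_mul (16 * ar K ^ 6 * (3 / ε) ^ 4)
    rw [mul_zero] at h4
    refine h4.congr fun x => ?_
    simp only [Function.comp_apply, id]
    rw [show -(ε / 3 * x) = -(ε / 3) * x by ring]
    field_simp
  have hev : ∀ᶠ m : ℕ in atTop, 16 * (m:ℝ) ^ 4 * ar K ^ 6 * Real.exp (-(ε / 3) * m) ≤ κ := by
    have h3 := (hlim.comp tendsto_natCast_atTop_atTop).eventually (gt_mem_nhds hκ0)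
    filter_upwards [h3] with m hm
    exact le_of_lt hm
  obtain ⟨N1, hN1⟩ := eventually_atTop.1 hev
  refine ⟨η, hη, max N0 (max N1 3), fun a b ha hb hab => ?_⟩
  have ha0 : N0 ≤ a := (le_max_left _ _).trans ha
  have hb0 : N0 ≤ b := (le_max_left _ _).trans hb
  have ha1 : N1 ≤ a := ((le_max_left _ _).trans (le_max_right _ _)).trans ha
  have ha3 : 3 ≤ a := ((le_max_right _ _).trans (le_max_right _ _)).trans ha
  have hb3 : 3 ≤ b := ((le_max_right _ _).trans (le_max_right _ _)).trans hb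
  have b1 := hN0 a b ha0 hb0 hab
  have b2 := hN1 (a + b) (by omega)
  have b3 := hcut K d v Δ ρ (-d, 0) (d, 0) a b hK.conv hK.cpt hd0 hdΔ hv0 hvΔ hKΔ hbox hzL
    (by simp) hzR (by simp) hρ0 hρ1 ha3 hb3
  have hpow : (1 - ρ) ^ (2 * (a + b)) = Real.exp (-(ε / 3) * ((a:ℝ) + b)) := by
    rw [hρ, sub_sub_cancel, ← Real.exp_nat_mul]
    congr 1
    push_cast
    ring
  rw [hpow] at b3
  rw [hθ2] at b1
  push_cast at b2
  exact alg a b (by omega) (by omega) hA hA1 hA2 hκ0 (vr_nonneg _ _) (vr_nonneg _ _)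
    (vr_nonneg _ _) b3 b1 b2

/-- An interior point of `K ∩ {f ≤ 0}`. -/
theorem int_neg {K : Set E} (h : (interior (K ∩ {p | p.1 ≤ 0})).Nonempty) :
    ∃ z ∈ interior K, z.1 < 0 := by
  obtain ⟨z, hz⟩ := h
  refine ⟨z, interior_mono Set.inter_subset_left hz, ?_⟩
  obtain ⟨r, hr, hball⟩ := Metric.isOpen_iff.1 isOpen_interior z hz
  have h1 : ((z.1 + r / 2, z.2) : E) ∈ Metric.ball z r := by
    rw [mem_ball_iff_norm, Prod.norm_def]
    simp only [Prod.fst_sub, Prod.snd_sub, add_sub_cancel_left, sub_self, norm_zero]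
    rw [max_lt_iff, Real.norm_eq_abs, abs_of_pos (by positivity)]
    constructor <;> linarith
  have h2 := interior_subset (hball h1)
  have h3 : z.1 + r / 2 ≤ 0 := h2.2
  linarith

theorem int_pos {K : Set E} (h : (interior (K ∩ {p | 0 ≤ p.1})).Nonempty) :
    ∃ z ∈ interior K, 0 < z.1 := by
  obtain ⟨z, hz⟩ := h
  refine ⟨z, interior_mono Set.inter_subset_left hz, ?_⟩
  obtain ⟨r, hr, hball⟩ := Metric.isOpen_iff.1 isOpen_interior z hz
  have h1 : ((z.1 - r / 2, z.2) : E) ∈ Metric.ball z r := by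
    rw [mem_ball_iff_norm, Prod.norm_def]
    simp only [Prod.fst_sub, Prod.snd_sub, sub_sub_cancel_left, sub_self, norm_zero]
    rw [max_lt_iff, Real.norm_eq_abs, abs_neg, abs_of_pos (by positivity)]
    constructor <;> linarith
  have h2 := interior_subset (hball h1)
  have h3 : 0 ≤ z.1 - r / 2 := h2.2
  linarith

/-- The case of the line `x = 0`. -/
theorem core2 (haff : G_AFF) (hcut : G_CUT) (hbin : G_BIN) {K : Set E} (hK : Body K)
    (h1 : Body (K ∩ {p | p.1 ≤ 0})) (h2 : Body (K ∩ {p | 0 ≤ p.1})) :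
    Concl K (K ∩ {p | p.1 ≤ 0}) (K ∩ {p | 0 ≤ p.1}) := by
  obtain ⟨z1, hz1, hz1'⟩ := int_neg h1.int
  obtain ⟨z2, hz2, hz2'⟩ := int_pos h2.int
  obtain ⟨y0, hy0⟩ : ∃ y0 : ℝ, ((0, y0) : E) ∈ interior K := by
    have hconv := hK.conv.interior
    have hs : 0 < z2.1 - z1.1 := by linarith
    have h3 := hconv hz1 hz2 (a := z2.1 / (z2.1 - z1.1)) (b := -z1.1 / (z2.1 - z1.1))
      (div_nonneg hz2'.le hs.le) (div_nonneg (by linarith) hs.le) (by
        field_simp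
        ring)
    refine ⟨((z2.1 / (z2.1 - z1.1)) • z1 + (-z1.1 / (z2.1 - z1.1)) • z2).2, ?_⟩
    have h4 : (((z2.1 / (z2.1 - z1.1)) • z1 + (-z1.1 / (z2.1 - z1.1)) • z2 : E)).1 = 0 := by
      simp only [Prod.fst_add, Prod.smul_fst, smul_eq_mul]
      field_simp
      ring
    rw [← h4]
    exact h3
  have hdet : LinearMap.det (LinearMap.id : E →ₗ[ℝ] E) ≠ 0 := by
    rw [LinearMap.det_id]
    exact one_ne_zero
  set t : E := (0, -y0) with ht
  have hpre1 : {p : E | p.1 ≤ 0} =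
      (fun p : E => (LinearMap.id : E →ₗ[ℝ] E) p + t) ⁻¹' {p | p.1 ≤ 0} := by
    ext p
    simp [ht]
  have hpre2 : {p : E | 0 ≤ p.1} =
      (fun p : E => (LinearMap.id : E →ₗ[ℝ] E) p + t) ⁻¹' {p | 0 ≤ p.1} := by
    ext p
    simp [ht]
  have hi1 : (fun p : E => (LinearMap.id : E →ₗ[ℝ] E) p + t) '' (K ∩ {p | p.1 ≤ 0}) =
      (fun p : E => (LinearMap.id : E →ₗ[ℝ] E) p + t) '' K ∩ {p | p.1 ≤ 0} := by
    conv_lhs => rw [hpre1]
    rw [Set.image_inter_preimage]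
  have hi2 : (fun p : E => (LinearMap.id : E →ₗ[ℝ] E) p + t) '' (K ∩ {p | 0 ≤ p.1}) =
      (fun p : E => (LinearMap.id : E →ₗ[ℝ] E) p + t) '' K ∩ {p | 0 ≤ p.1} := by
    conv_lhs => rw [hpre2]
    rw [Set.image_inter_preimage]
  obtain ⟨_, _, _, hb⟩ := haff LinearMap.id t hdet
  refine transport haff LinearMap.id t hdet hK h1 h2 ?_
  have g1 := (hb 0 _ h1).1
  have g2 := (hb 0 _ h2).1
  rw [hi1] at g1
  rw [hi2] at g2
  rw [hi1, hi2]
  refine core hcut hbin (hb 0 K hK).1 g1 g2 ?_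
  have hfun : (fun p : E => (LinearMap.id : E →ₗ[ℝ] E) p + t) = fun p : E => p + t := rfl
  rw [hfun]
  have hint : interior ((fun p : E => p + t) '' K) = (fun p : E => p + t) '' interior K := by
    exact ((Homeomorph.addRight t).image_interior K).symm
  rw [hint]
  refine ⟨(0, y0), hy0, ?_⟩
  rw [ht]
  simp

/-- GCL. -/
theorem gcl : G_CUT → G_AFF → G_BIN → G_GCL := by
  intro hcut haff hbin K α β γ hK hαβ h1 h2
  set L : E →ₗ[ℝ] E := Matrix.toLin (Module.Basis.finTwoProd ℝ) (Module.Basis.finTwoProd ℝ)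
    !![α, β; -β, α] with hL
  have hLp : ∀ p : E, L p = (α * p.1 + β * p.2, -β * p.1 + α * p.2) := by
    intro p
    rw [hL, Matrix.toLin_finTwoProd_apply]
  have hdet : LinearMap.det L ≠ 0 := by
    rw [hL, LinearMap.det_toLin, Matrix.det_fin_two_of]
    have : 0 < α ^ 2 + β ^ 2 := by
      rcases hαβ with h | h
      · have := pow_pos (abs_pos.2 h) 2
        rw [sq_abs] at this
        nlinarith [sq_nonneg β]
      · have := pow_pos (abs_pos.2 h) 2
        rw [sq_abs] at this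
        nlinarith [sq_nonneg α]
    intro h
    nlinarith
  set t : E := (-γ, 0) with ht
  have hpre1 : HL α β γ = (fun p : E => L p + t) ⁻¹' {p | p.1 ≤ 0} := by
    ext p
    simp only [HL, Set.mem_preimage, Set.mem_setOf_eq, hLp, ht, Prod.mk_add_mk]
    constructor <;> intro h <;> linarith
  have hpre2 : HR α β γ = (fun p : E => L p + t) ⁻¹' {p | 0 ≤ p.1} := by
    ext p
    simp only [HR, Set.mem_preimage, Set.mem_setOf_eq, hLp, ht, Prod.mk_add_mk]
    constructor <;> intro h <;> linarith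
  have hi1 : (fun p : E => L p + t) '' (K ∩ HL α β γ) =
      (fun p : E => L p + t) '' K ∩ {p | p.1 ≤ 0} := by
    rw [hpre1, Set.image_inter_preimage]
  have hi2 : (fun p : E => L p + t) '' (K ∩ HR α β γ) =
      (fun p : E => L p + t) '' K ∩ {p | 0 ≤ p.1} := by
    rw [hpre2, Set.image_inter_preimage]
  obtain ⟨_, _, _, hb⟩ := haff L t hdet
  have key : Concl K (K ∩ HL α β γ) (K ∩ HR α β γ) := by
    refine transport haff L t hdet hK h1 h2 ?_
    have g1 := (hb 0 _ h1).1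
    have g2 := (hb 0 _ h2).1
    rw [hi1] at g1
    rw [hi2] at g2
    rw [hi1, hi2]
    exact core2 haff hcut hbin (hb 0 K hK).1 g1 g2
  exact key

end RP.PkGCL
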