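import Pool.Agent.Helper26.RP.Goals

/-! MP_105b7b_pr, packet TRE. -/

noncomputable section

namespace RP.PkTRE

open RP MeasureTheory Filter Topology

theorem mem_tri {p q r z : E} : z ∈ tri p q r ↔
    ∃ a b c : ℝ, 0 ≤ a ∧ 0 ≤ b ∧ 0 ≤ c ∧ a + b + c = 1 ∧ z = a • p + b • q + c • r := by
  rw [tri]
  constructor
  · intro h
    rw [convexHull_insert (by simp), convexHull_pair, mem_convexJoin] at h
    obtain ⟨p', hp', y, hy, hz⟩ := h
    rw [Set.mem_singleton_iff] at hp'
    subst hp'
    obtain ⟨s, t, hs, ht, hst, rfl⟩ := hy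
    obtain ⟨u, v, hu, hv, huv, rfl⟩ := hz
    refine ⟨u, v * s, v * t, hu, mul_nonneg hv hs, mul_nonneg hv ht, ?_, ?_⟩
    · calc u + v * s + v * t = u + v * (s + t) := by ring
        _ = 1 := by rw [hst, mul_one, huv]
    · rw [smul_add, smul_smul, smul_smul, add_assoc]
  · rintro ⟨a, b, c, ha, hb, hc, habc, rfl⟩
    have h := (convex_convexHull ℝ ({p, q, r} : Set E)).sum_mem (t := Finset.univ)
      (w := ![a, b, c]) (z := ![p, q, r]) (by
        intro i _
        fin_cases i <;> simp [ha, hb, hc]) (by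
        rw [Fin.sum_univ_three]
        simpa using habc) (by
        intro i _
        fin_cases i
        · exact subset_convexHull ℝ _ (by simp)
        · exact subset_convexHull ℝ _ (by simp)
        · exact subset_convexHull ℝ _ (by simp))
    rw [Fin.sum_univ_three] at h
    simpa using h

theorem mem_T0 {z : E} : z ∈ T0 ↔ 0 ≤ z.1 ∧ 0 ≤ z.2 ∧ z.1 + z.2 ≤ 1 := by
  rw [T0, mem_tri]
  constructor
  · rintro ⟨a, b, c, ha, hb, hc, habc, rfl⟩
    simp only [Prod.fst_add, Prod.snd_add, Prod.smul_fst, Prod.smul_snd, smul_eq_mul]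
    refine ⟨by linarith, by linarith, by linarith⟩
  · rintro ⟨h1, h2, h3⟩
    refine ⟨1 - z.1 - z.2, z.1, z.2, by linarith, h1, h2, by ring, ?_⟩
    apply Prod.ext <;> simp

theorem vol_T0 : volume T0 = ENNReal.ofReal (1 / 2) := by
  have hclosed : MeasurableSet T0 := by
    have : T0 = {z : E | 0 ≤ z.1} ∩ ({z : E | 0 ≤ z.2} ∩ {z : E | z.1 + z.2 ≤ 1}) := by
      ext z
      rw [mem_T0]
      rfl
    rw [this]
    exact (measurableSet_le measurable_const measurable_fst).inter
      ((measurableSet_le measurable_const measurable_snd).inter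
        (measurableSet_le (measurable_fst.add measurable_snd) measurable_const))
  rw [Measure.volume_eq_prod, Measure.prod_apply hclosed]
  have hslice : ∀ x : ℝ, volume (Prod.mk x ⁻¹' T0) =
      (Set.Icc (0:ℝ) 1).indicator (fun x => ENNReal.ofReal (1 - x)) x := by
    intro x
    by_cases hx : x ∈ Set.Icc (0:ℝ) 1
    · rw [Set.indicator_of_mem hx]
      have : Prod.mk x ⁻¹' T0 = Set.Icc 0 (1 - x) := by
        ext y
        rw [Set.mem_preimage, mem_T0, Set.mem_Icc]
        constructor
        · rintro ⟨_, h2, h3⟩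
          exact ⟨h2, by simp only [] at h3; linarith⟩
        · rintro ⟨h2, h3⟩
          exact ⟨hx.1, h2, by simp only []; linarith⟩
      rw [this, Real.volume_Icc, sub_zero]
    · rw [Set.indicator_of_notMem hx]
      have : Prod.mk x ⁻¹' T0 = ∅ := by
        ext y
        rw [Set.mem_preimage, mem_T0]
        simp only [Set.mem_empty_iff_false, iff_false]
        rintro ⟨h1, h2, h3⟩
        exact hx ⟨h1, by linarith⟩
      rw [this, measure_empty]
  simp only [hslice]
  rw [lintegral_indicator measurableSet_Icc, ← ofReal_integral_eq_lintegral_ofReal]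
  · congr 1
    rw [integral_Icc_eq_integral_Ioc, ← intervalIntegral.integral_of_le zero_le_one]
    rw [intervalIntegral.integral_sub intervalIntegrable_const intervalIntegral.intervalIntegrable_id,
      intervalIntegral.integral_const, integral_id]
    norm_num
  · exact (Continuous.integrableOn_Icc (by fun_prop))
  · rw [Filter.EventuallyLE, ae_restrict_iff' measurableSet_Icc]
    refine Eventually.of_forall fun x hx => ?_
    simp only [Pi.zero_apply]
    linarith [hx.2]

theorem ar_T0 : ar T0 = 1 / 2 := by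
  rw [ar, vol_T0, ENNReal.toReal_ofReal (by norm_num)]

theorem body_T0 : Body T0 := by
  refine ⟨convex_convexHull ℝ _, ?_, ?_⟩
  · exact Set.Finite.isCompact_convexHull (𝕜 := ℝ) (Set.toFinite _)
  · refine ⟨(1 / 4, 1 / 4), ?_⟩
    rw [mem_interior_iff_mem_nhds, Metric.mem_nhds_iff]
    refine ⟨1 / 8, by norm_num, ?_⟩
    intro z hz
    rw [mem_ball_iff_norm, Prod.norm_def, max_lt_iff, Real.norm_eq_abs, Real.norm_eq_abs,
      abs_lt, abs_lt] at hz
    simp only [Prod.fst_sub, Prod.snd_sub] at hz
    rw [mem_T0]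
    refine ⟨by linarith, by linarith, by linarith⟩

theorem part1 (haff : G_AFF) (p q r : E) (h : orient p q r ≠ 0) : Body (tri p q r) ∧
    ar (tri p q r) = |orient p q r| / 2 ∧ ∀ n, w n (tri p q r) = w n T0 := by
  set L : E →ₗ[ℝ] E := Matrix.toLin (Module.Basis.finTwoProd ℝ) (Module.Basis.finTwoProd ℝ)
    !![q.1 - p.1, r.1 - p.1; q.2 - p.2, r.2 - p.2] with hL
  have hLp : ∀ z : E, L z = ((q.1 - p.1) * z.1 + (r.1 - p.1) * z.2,
      (q.2 - p.2) * z.1 + (r.2 - p.2) * z.2) := by
    intro z
    rw [hL, Matrix.toLin_finTwoProd_apply]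
  have hdet : LinearMap.det L = orient p q r := by
    rw [hL, LinearMap.det_toLin, Matrix.det_fin_two_of, orient]
    ring
  have hd : LinearMap.det L ≠ 0 := by rw [hdet]; exact h
  obtain ⟨_, _, har, hw⟩ := haff L p hd
  have himg : (fun z => L z + p) '' T0 = tri p q r := by
    ext z
    rw [mem_tri]
    constructor
    · rintro ⟨y, hy, rfl⟩
      rw [mem_T0] at hy
      refine ⟨1 - y.1 - y.2, y.1, y.2, by linarith, hy.1, hy.2.1, by ring, ?_⟩
      simp only [hLp]
      apply Prod.ext
      · simp only [Prod.fst_add, Prod.smul_fst, smul_eq_mul]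
        ring
      · simp only [Prod.snd_add, Prod.smul_snd, smul_eq_mul]
        ring
    · rintro ⟨a, b, c, ha, hb, hc, habc, rfl⟩
      refine ⟨(b, c), mem_T0.2 ⟨hb, hc, by simp only []; linarith⟩, ?_⟩
      have ha' : a = 1 - b - c := by linarith
      subst ha'
      simp only [hLp]
      apply Prod.ext
      · simp only [Prod.fst_add, Prod.smul_fst, smul_eq_mul]
        ring
      · simp only [Prod.snd_add, Prod.smul_snd, smul_eq_mul]
        ring
  rw [← himg]
  refine ⟨(hw 0 T0 body_T0).1, ?_, fun n => (hw n T0 body_T0).2⟩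
  rw [har, hdet, ar_T0]
  ring

theorem mem_big {c : ℝ} {z : E} : z ∈ tri (0, 0) (1, 0) (c, 1) ↔
    0 ≤ z.2 ∧ c * z.2 ≤ z.1 ∧ z.1 ≤ 1 - (1 - c) * z.2 := by
  rw [mem_tri]
  constructor
  · rintro ⟨a, b, d, ha, hb, hd, habc, rfl⟩
    simp only [Prod.fst_add, Prod.snd_add, Prod.smul_fst, Prod.smul_snd, smul_eq_mul]
    refine ⟨by linarith, by nlinarith, by nlinarith⟩
  · rintro ⟨h1, h2, h3⟩
    refine ⟨1 - (z.1 - c * z.2) - z.2, z.1 - c * z.2, z.2, by nlinarith, by linarith, h1,
      by ring, ?_⟩
    apply Prod.ext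
    · simp only [Prod.fst_add, Prod.smul_fst, smul_eq_mul]
      ring
    · simp only [Prod.snd_add, Prod.smul_snd, smul_eq_mul]
      ring

/-- TRE. -/
theorem tre : G_AFF → G_TRE := by
  intro haff
  refine ⟨fun p q r h => part1 haff p q r h, ?_⟩
  intro c hc0 hc1
  have hc1' : 0 < 1 - c := by linarith
  refine ⟨?_, ?_, ?_⟩
  · ext z
    rw [mem_big]
    rfl
  · ext z
    rw [Set.mem_inter_iff, mem_big, mem_tri]
    constructor
    · rintro ⟨⟨h1, h2, h3⟩, h4⟩
      have h4 : z.1 ≤ c := h4
      refine ⟨1 - z.1 / c, (z.1 - c * z.2) / c, z.2, ?_, div_nonneg (by linarith) hc0.le, h1, ?_,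
        ?_⟩
      · rw [sub_nonneg, div_le_one hc0]
        exact h4
      · field_simp
        ring
      · apply Prod.ext
        · simp only [Prod.fst_add, Prod.smul_fst, smul_eq_mul]
          field_simp
          ring
        · simp only [Prod.snd_add, Prod.smul_snd, smul_eq_mul]
          ring
    · rintro ⟨a, b, d, ha, hb, hd, habc, rfl⟩
      simp only [Prod.fst_add, Prod.snd_add, Prod.smul_fst, Prod.smul_snd, smul_eq_mul]
      refine ⟨⟨by linarith, by nlinarith, ?_⟩, ?_⟩
      · nlinarith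
      · change _ ≤ c
        simp only [Prod.fst_add, Prod.smul_fst, smul_eq_mul]
        nlinarith
  · ext z
    rw [Set.mem_inter_iff, mem_big, mem_tri]
    constructor
    · rintro ⟨⟨h1, h2, h3⟩, h4⟩
      have h4 : c ≤ z.1 := h4
      refine ⟨1 - z.2 - (z.1 - c) / (1 - c), (z.1 - c) / (1 - c), z.2, ?_,
        div_nonneg (by linarith) hc1'.le, h1, by ring, ?_⟩
      · rw [sub_nonneg, div_le_iff₀ hc1']
        nlinarith
      · apply Prod.ext
        · simp only [Prod.fst_add, Prod.smul_fst, smul_eq_mul]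
          field_simp
          ring
        · simp only [Prod.snd_add, Prod.smul_snd, smul_eq_mul]
          ring
    · rintro ⟨a, b, d, ha, hb, hd, habc, rfl⟩
      have ha' : a = 1 - b - d := by linarith
      subst ha'
      simp only [Prod.fst_add, Prod.snd_add, Prod.smul_fst, Prod.smul_snd, smul_eq_mul]
      refine ⟨⟨by linarith, by nlinarith, by nlinarith⟩, ?_⟩
      · change c ≤ _
        simp only [Prod.fst_add, Prod.smul_fst, smul_eq_mul]
        nlinarith

end RP.PkTRE
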